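import Pool.Agent.Helper53.AE.GoalsB

/-!
# Project AE (MP_8130e1_an), packet WIN: windows
-/

set_option autoImplicit false

namespace Pool.Agent.Helper30.AE.WIN

open Pool.Agent.Helper53.AE

/-- The ends of the windows. -/
def NN (R : ℕ → ℕ) : ℕ → ℕ
  | 0 => 0
  | n + 1 => max (R (n + 1)) (NN R n + 4 ^ (n + 1))

theorem NN_gap (R : ℕ → ℕ) (n : ℕ) : NN R n + 4 ^ (n + 1) ≤ NN R (n + 1) := le_max_right _ _

theorem NN_lt (R : ℕ → ℕ) (n : ℕ) : NN R n < NN R (n + 1) := by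
  have h1 := NN_gap R n
  have h2 : 0 < 4 ^ (n + 1) := by positivity
  omega

/-- The ramps. -/
noncomputable def hh (R : ℕ → ℕ) (n k : ℕ) : ℝ :=
  if n = 0 then 1 else min 1 (((k - NN R n : ℕ) : ℝ) / ((NN R (n + 1) : ℝ) - NN R n))

theorem gap_pos (R : ℕ → ℕ) (n : ℕ) : (4 : ℝ) ^ (n + 1) ≤ (NN R (n + 1) : ℝ) - NN R n := by
  have h : ((NN R n + 4 ^ (n + 1) : ℕ) : ℝ) ≤ (NN R (n + 1) : ℝ) := by exact_mod_cast NN_gap R n
  push_cast at h
  linarith

theorem hh_nonneg (R : ℕ → ℕ) (n k : ℕ) : 0 ≤ hh R n k := by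
  unfold hh
  have h1 := gap_pos R n
  have h2 : (0 : ℝ) < 4 ^ (n + 1) := by positivity
  split_ifs
  · norm_num
  · exact le_min zero_le_one (div_nonneg (Nat.cast_nonneg _) (by linarith))

theorem hh_le (R : ℕ → ℕ) (n k : ℕ) : hh R n k ≤ 1 := by
  unfold hh
  split_ifs
  · exact le_rfl
  · exact min_le_left _ _

theorem hh_zero (R : ℕ → ℕ) {n k : ℕ} (hn : n ≠ 0) (hk : k ≤ NN R n) : hh R n k = 0 := by
  unfold hh
  rw [if_neg hn, Nat.sub_eq_zero_of_le hk]
  simp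

theorem hh_one (R : ℕ → ℕ) {n k : ℕ} (hk : NN R (n + 1) ≤ k) : hh R n k = 1 := by
  unfold hh
  split_ifs
  · rfl
  · apply min_eq_left
    have h1 := gap_pos R n
    have h2 : (0 : ℝ) < 4 ^ (n + 1) := by positivity
    rw [le_div_iff₀ (by linarith), one_mul, Nat.cast_sub ((NN_lt R n).le.trans hk)]
    have : (NN R (n + 1) : ℝ) ≤ k := by exact_mod_cast hk
    linarith

theorem hh_anti (R : ℕ → ℕ) (n k : ℕ) : hh R (n + 1) k ≤ hh R n k := by
  rcases le_total k (NN R (n + 1)) with h | h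
  · rw [hh_zero R (Nat.succ_ne_zero n) h]
    exact hh_nonneg R n k
  · rw [hh_one R h]
    exact hh_le R (n + 1) k

theorem hh_lip (R : ℕ → ℕ) (n k : ℕ) : |hh R n k - hh R n (k + 1)| ≤ 1 / 4 ^ (n + 1) := by
  have h1 := gap_pos R n
  have h2 : (0 : ℝ) < 4 ^ (n + 1) := by positivity
  unfold hh
  split_ifs
  · rw [sub_self, abs_zero]
    positivity
  · refine (abs_min_sub_min_le_max _ _ _ _).trans ?_
    apply max_le
    · rw [sub_self, abs_zero]
      positivity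
    · rw [← sub_div, abs_div, abs_of_pos (by linarith : (0 : ℝ) < (NN R (n + 1) : ℝ) - NN R n)]
      apply div_le_div₀ zero_le_one _ h2 h1
      have h3 : (k - NN R n : ℕ) = (k + 1 - NN R n : ℕ) ∨
          (k - NN R n : ℕ) + 1 = (k + 1 - NN R n : ℕ) := by omega
      rcases h3 with h3 | h3
      · rw [h3, sub_self, abs_zero]
        exact zero_le_one
      · rw [← h3]
        push_cast
        rw [sub_add_cancel_left, abs_neg, abs_one]

/-- The squares of the windows. -/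
noncomputable def gg (R : ℕ → ℕ) (n k : ℕ) : ℝ := hh R n k - hh R (n + 1) k

theorem gg_nonneg (R : ℕ → ℕ) (n k : ℕ) : 0 ≤ gg R n k := sub_nonneg.2 (hh_anti R n k)

theorem gg_zero (R : ℕ → ℕ) {n k : ℕ} (h : k < NN R n ∨ NN R (n + 2) ≤ k) : gg R n k = 0 := by
  unfold gg
  rcases h with h | h
  · have hn : n ≠ 0 := by
      rintro rfl
      exact absurd h (Nat.not_lt_zero k)
    rw [hh_zero R hn h.le, hh_zero R (Nat.succ_ne_zero n) (h.le.trans (NN_lt R n).le), sub_self]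
  · rw [hh_one R ((NN_lt R (n + 1)).le.trans h), hh_one R h, sub_self]

theorem gg_lip (R : ℕ → ℕ) (n k : ℕ) : |gg R n k - gg R n (k + 1)| ≤ ((1 / 2) ^ n) ^ 2 := by
  have h1 := abs_le.1 (hh_lip R n k)
  have h2 := abs_le.1 (hh_lip R (n + 1) k)
  have h3 : ((1 / 2 : ℝ) ^ n) ^ 2 = 1 / 4 ^ n := by
    rw [← pow_mul, mul_comm, pow_mul, one_div_pow, one_div_pow]
    norm_num
  have h4 : (1 : ℝ) / 4 ^ (n + 1) = 1 / 4 ^ n / 4 := by
    rw [pow_succ]
    field_simp
  have h5 : (1 : ℝ) / 4 ^ (n + 1 + 1) = 1 / 4 ^ n / 16 := by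
    rw [pow_succ, pow_succ]
    field_simp
    norm_num
  have h6 : (0 : ℝ) < 1 / 4 ^ n := by positivity
  rw [h4] at h1
  rw [h5] at h2
  rw [h3]
  unfold gg
  rw [abs_le]
  constructor <;> linarith [h1.1, h1.2, h2.1, h2.2]

theorem sqrt_lip {a b ε : ℝ} (ha : 0 ≤ a) (hb : 0 ≤ b) (hε : 0 ≤ ε) (h : |a - b| ≤ ε ^ 2) :
    |Real.sqrt a - Real.sqrt b| ≤ ε := by
  have h1 := Real.sqrt_nonneg a
  have h2 := Real.sqrt_nonneg b
  have h3 : |Real.sqrt a - Real.sqrt b| ≤ Real.sqrt a + Real.sqrt b := by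
    rw [abs_le]
    constructor <;> linarith
  have h4 : |Real.sqrt a - Real.sqrt b| * (Real.sqrt a + Real.sqrt b) = |a - b| := by
    rw [← abs_of_nonneg (add_nonneg h1 h2), ← abs_mul]
    congr 1
    have h5 := Real.mul_self_sqrt ha
    have h6 := Real.mul_self_sqrt hb
    linear_combination h5 - h6
  have h5 : |Real.sqrt a - Real.sqrt b| ^ 2 ≤ ε ^ 2 := by
    calc |Real.sqrt a - Real.sqrt b| ^ 2 = |Real.sqrt a - Real.sqrt b| *
          |Real.sqrt a - Real.sqrt b| := pow_two _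
      _ ≤ |Real.sqrt a - Real.sqrt b| * (Real.sqrt a + Real.sqrt b) :=
          mul_le_mul_of_nonneg_left h3 (abs_nonneg _)
      _ = |a - b| := h4
      _ ≤ ε ^ 2 := h
  exact le_of_sq_le_sq h5 hε

theorem t : S_WIN := by
  intro R
  refine ⟨NN R, fun n k => Real.sqrt (gg R n k), rfl, ?_, NN_lt R, ?_, ?_, ?_, ?_⟩
  · intro n hn
    obtain ⟨m, rfl⟩ := Nat.exists_eq_succ_of_ne_zero hn.ne'
    exact le_max_left _ _
  · intro n k
    exact Real.sqrt_nonneg _
  · intro n k h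
    show Real.sqrt (gg R n k) = 0
    rw [gg_zero R h, Real.sqrt_zero]
  · intro n k
    exact sqrt_lip (gg_nonneg R n k) (gg_nonneg R n (k + 1)) (by positivity) (gg_lip R n k)
  · intro k n hk
    have h1 : ∀ i ∈ Finset.range n, Real.sqrt (gg R i k) ^ 2 = hh R i k - hh R (i + 1) k := by
      intro i _
      rw [Real.sq_sqrt (gg_nonneg R i k)]
      rfl
    rw [Finset.sum_congr rfl h1, Finset.sum_range_sub' (fun i => hh R i k)]
    have hn : n ≠ 0 := by
      rintro rfl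
      exact absurd hk (Nat.not_lt_zero k)
    have h2 : hh R 0 k = 1 := by
      unfold hh
      rw [if_pos rfl]
    show hh R 0 k - hh R n k = 1
    rw [h2, hh_zero R hn hk.le, sub_zero]

end Pool.Agent.Helper30.AE.WIN
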